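import Mathlib
import Pool.Agent.H737R3.Points

set_option autoImplicit false

namespace Pool.Agent.Results.MP_794b84_ag.Demailly

open MvPolynomial Filter Topology Pool.Agent.H737R3

/-- **Demailly's conjecture.** Let `k` be an algebraically closed field of characteristic zero,
`N ≥ 3`, and let `X` be a nonempty finite set of points of the projective space of dimension `N`
over `k`, with ideal `I` and symbolic powers `I^(m) = symPow X m`. The Waldschmidt constant
`c = lim α(I^(r))/r` exists, and `c ≥ (α(I^(m)) + N - 1)/(m + N - 1)` for every `m ≥ 1`. -/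
theorem result (k : Type*) [Field k] [IsAlgClosed k] [CharZero k] (N : ℕ) (hN : 3 ≤ N)
    (X : Finset (PP k N)) (hX : X.Nonempty) :
    ∃ c : ℝ, Tendsto (fun r : ℕ => (alpha (symPow X r) : ℝ) / r) atTop (𝓝 c) ∧
      ∀ m : ℕ, 1 ≤ m → ((alpha (symPow X m) : ℝ) + N - 1) / ((m : ℝ) + N - 1) ≤ c := by
  have hI : ∀ r : ℕ, symPow X r = wIdeal X (fun p => r * (fun _ : PP k N => 1) p) := by
    intro r
    unfold symPow wIdeal
    simp only [mul_one]
  have hN1 : 1 ≤ N := by omega
  obtain ⟨q, hq⟩ := hX
  obtain ⟨c, hc⟩ := exists_limit hN1 X (fun _ => 1)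
  simp only [hI]
  refine ⟨c, hc, fun m hm => ge_of_tendsto hc ?_⟩
  filter_upwards [eventually_ge_atTop 1] with r hr
  exact real_of_nat hN1 hm hr (demailly_w hN1 X (fun _ => 1) ⟨q, hq, le_rfl⟩ m r hm)

end Pool.Agent.Results.MP_794b84_ag.Demailly
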